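import Pool.Agent.U312.NE.Mat0

/-! Rings of the variety without zero divisors and of characteristic zero are commutative. -/

set_option autoImplicit false

namespace Pool.Agent.U312.NE

open Pool.Agent.H854R3.NE TensorProduct

/-- A torsion-free ring embeds in a `ℚ`-algebra. -/
theorem exists_alg {P : Type} [NonUnitalRing P] (htf : ∀ k : ℕ, k ≠ 0 → ∀ x : P, k • x = 0 → x = 0) :
    ∃ (C : Type) (_ : Ring C) (_ : Algebra ℚ C) (j : P →ₙ+* C), Function.Injective j ∧
      ∀ z : C, ∃ (t s : ℚ) (a : P), z = t • (1 : C) + s • j a := by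
  have key : ∀ (U : Type) [Ring U] (j : P →ₙ+* U), Function.Injective j →
      (∀ k : ℤ, k ≠ 0 → ∀ u : U, k • u = 0 → u = 0) →
      (∀ u : U, ∃ (k : ℤ) (a : P), u = k • (1 : U) + j a) →
      ∃ (C : Type) (_ : Ring C) (_ : Algebra ℚ C) (j : P →ₙ+* C), Function.Injective j ∧
      ∀ z : C, ∃ (t s : ℚ) (a : P), z = t • (1 : C) + s • j a := by
    intro U _ j hj htU hU
    have hflat : Module.Flat ℤ U := by
      rw [Module.Flat.flat_iff_torsion_eq_bot_of_isBezout, eq_bot_iff]
      rintro u ⟨⟨r, hr⟩, h⟩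
      exact htU r (nonZeroDivisors.ne_zero hr) u h
    let i : U →ₐ[ℤ] ℚ ⊗[ℤ] U := Algebra.TensorProduct.includeRight
    have hi : Function.Injective i :=
      Algebra.TensorProduct.includeRight_injective (by
        intro a b hab
        simpa using hab)
    let j' : P →ₙ+* ℚ ⊗[ℤ] U :=
      { toFun := fun a => i (j a)
        map_mul' := fun a b => by rw [map_mul, map_mul]
        map_zero' := by rw [map_zero, map_zero]
        map_add' := fun a b => by rw [map_add, map_add] }
    have hj' : ∀ a, j' a = (1 : ℚ) ⊗ₜ[ℤ] j a := fun a => rfl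
    refine ⟨ℚ ⊗[ℤ] U, inferInstance, inferInstance, j', fun a b hab => hj (hi hab), ?_⟩
    have hcomb : ∀ (s s' : ℚ) (a a' : P), ∃ (r : ℚ) (b : P), s • j' a + s' • j' a' = r • j' b := by
      intro s s' a a'
      have hd : (s.den : ℚ) ≠ 0 := Nat.cast_ne_zero.2 s.den_ne_zero
      have hd' : (s'.den : ℚ) ≠ 0 := Nat.cast_ne_zero.2 s'.den_ne_zero
      refine ⟨((s.den : ℚ) * s'.den)⁻¹, (s.num * s'.den) • a + (s'.num * s.den) • a', ?_⟩
      have h1 : ∀ (k : ℤ) (b : P), j' (k • b) = (k : ℚ) • j' b := by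
        intro k b
        rw [map_zsmul, Int.cast_smul_eq_zsmul]
      rw [map_add, h1, h1, smul_add, smul_smul, smul_smul]
      have e1 : ((s.den : ℚ) * s'.den)⁻¹ * ((s.num * s'.den : ℤ) : ℚ) = s := by
        push_cast
        rw [mul_inv, mul_comm (s.num : ℚ), ← mul_assoc, mul_assoc ((s.den : ℚ)⁻¹),
          inv_mul_cancel₀ hd', mul_one, ← div_eq_inv_mul, Rat.num_div_den]
      have e2 : ((s.den : ℚ) * s'.den)⁻¹ * ((s'.num * s.den : ℤ) : ℚ) = s' := by
        push_cast
        rw [mul_inv, mul_comm ((s.den : ℚ)⁻¹), mul_comm (s'.num : ℚ), ← mul_assoc,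
          mul_assoc ((s'.den : ℚ)⁻¹), inv_mul_cancel₀ hd, mul_one, ← div_eq_inv_mul,
          Rat.num_div_den]
      rw [e1, e2]
    intro z
    induction z using TensorProduct.induction_on with
    | zero => exact ⟨0, 0, 0, by rw [zero_smul, zero_smul, add_zero]⟩
    | tmul q u =>
      obtain ⟨k, a, rfl⟩ := hU u
      refine ⟨q * k, q, a, ?_⟩
      rw [TensorProduct.tmul_add, hj', TensorProduct.smul_tmul', smul_eq_mul, mul_one,
        Algebra.TensorProduct.one_def, TensorProduct.smul_tmul', smul_eq_mul, mul_one]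
      congr 1
      rw [TensorProduct.tmul_smul, TensorProduct.smul_tmul', zsmul_eq_mul, mul_comm]
    | add z z' h h' =>
      obtain ⟨t, s, a, rfl⟩ := h
      obtain ⟨t', s', a', rfl⟩ := h'
      obtain ⟨r, b, hb⟩ := hcomb s s' a a'
      refine ⟨t + t', r, b, ?_⟩
      rw [← hb, add_smul]
      abel
  refine key (Unitization ℤ P)
    { toFun := fun a => (a : Unitization ℤ P)
      map_mul' := fun a b => Unitization.inr_mul ℤ a b
      map_zero' := Unitization.inr_zero ℤ
      map_add' := fun a b => Unitization.inr_add ℤ a b } (Unitization.inr_injective) ?_ ?_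
  · intro k hk u hu
    induction u using Unitization.ind with
    | inl_add_inr n a =>
      have h1 := congrArg (fun u : Unitization ℤ P => u.toProd.1) hu
      have h2 := congrArg (fun u : Unitization ℤ P => u.toProd.2) hu
      have h1' : k * n = 0 := by
        have : k • (n + 0) = 0 := h1
        simpa using this
      have h2' : k • a = 0 := by
        have : k • ((0 : P) + a) = 0 := h2
        simpa using this
      have hn : n = 0 := by
        rcases mul_eq_zero.1 h1' with h | h
        · exact absurd h hk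
        · exact h
      have ha : a = 0 := by
        apply htf k.natAbs (Int.natAbs_ne_zero.2 hk)
        rcases Int.natAbs_eq k with h | h
        · rw [h, natCast_zsmul] at h2'
          exact h2'
        · rw [h, neg_smul, neg_eq_zero, natCast_zsmul] at h2'
          exact h2'
      rw [hn, ha]
      simp
  · intro u
    induction u using Unitization.ind with
    | inl_add_inr n a =>
      refine ⟨n, a, ?_⟩
      change _ = n • (1 : Unitization ℤ P) + (a : Unitization ℤ P)
      congr 1
      rw [zsmul_one]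
      exact eq_intCast (Unitization.inlRingHom ℤ P) n

/-- two-generated torsion-free rings of the variety without zero divisors are commutative -/
theorem domain_comm0 {E : Set (RTerm × RTerm)} {n p : ℕ} [hp : Fact p.Prime] (hD : D2Engel E n)
    (hW : IsEngel (E ∪ WId p (p ^ 1))) {P : Type} [NonUnitalRing P] (hP : Models E P)
    (htf : ∀ k : ℕ, k ≠ 0 → ∀ x : P, k • x = 0 → x = 0)
    (hdom : ∀ a b : P, a * b = 0 → a = 0 ∨ b = 0) {x y : P}
    (hg : GenBy x y) : x * y = y * x := by
  classical
  by_contra hne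
  set α := x * y - y * x with hα
  have hα0 : α ≠ 0 := fun h => hne (sub_eq_zero.1 h)
  have hαk : ∀ k, npw α k ≠ 0 := by
    intro k
    induction k with
    | zero => exact hα0
    | succ k ih =>
      intro h
      rcases hdom _ _ h with h | h
      · exact ih h
      · exact hα0 h
  obtain ⟨C, iR, iA, j, hj, hC⟩ := exists_alg htf
  obtain ⟨f, hf, hfA⟩ := exists_polyQ hW
  let S₀ : AddSubmonoid C :=
    { carrier := Set.range j
      add_mem' := by
        rintro _ _ ⟨a, rfl⟩ ⟨b, rfl⟩
        exact ⟨a + b, map_add j a b⟩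
      zero_mem' := ⟨0, map_zero j⟩ }
  obtain ⟨d, c, hc1, hc⟩ := linearise' S₀ f hf (by
    intro a ha
    obtain ⟨x, hx⟩ := ha 0
    obtain ⟨y, hy⟩ := ha 1
    have : a = ![j x, j y] := by
      funext i
      fin_cases i
      · exact hx.symm
      · exact hy.symm
    rw [this]
    exact hfA P C j hj hP x y)
  -- the rational multiples of elements of the ring
  have hcomb : ∀ (s s' : ℚ) (a a' : P), ∃ (r : ℚ) (b : P), s • j a + s' • j a' = r • j b := by
    intro s s' a a'
    have hd : (s.den : ℚ) ≠ 0 := Nat.cast_ne_zero.2 s.den_ne_zero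
    have hd' : (s'.den : ℚ) ≠ 0 := Nat.cast_ne_zero.2 s'.den_ne_zero
    refine ⟨((s.den : ℚ) * s'.den)⁻¹, (s.num * s'.den) • a + (s'.num * s.den) • a', ?_⟩
    have h1 : ∀ (k : ℤ) (b : P), j (k • b) = (k : ℚ) • j b := by
      intro k b
      rw [map_zsmul, Int.cast_smul_eq_zsmul]
    rw [map_add, h1, h1, smul_add, smul_smul, smul_smul]
    have e1 : ((s.den : ℚ) * s'.den)⁻¹ * ((s.num * s'.den : ℤ) : ℚ) = s := by
      push_cast
      rw [mul_inv, mul_comm (s.num : ℚ), ← mul_assoc, mul_assoc ((s.den : ℚ)⁻¹),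
        inv_mul_cancel₀ hd', mul_one, ← div_eq_inv_mul, Rat.num_div_den]
    have e2 : ((s.den : ℚ) * s'.den)⁻¹ * ((s'.num * s.den : ℤ) : ℚ) = s' := by
      push_cast
      rw [mul_inv, mul_comm ((s.den : ℚ)⁻¹), mul_comm (s'.num : ℚ), ← mul_assoc,
        mul_assoc ((s'.den : ℚ)⁻¹), inv_mul_cancel₀ hd, mul_one, ← div_eq_inv_mul,
        Rat.num_div_den]
    rw [e1, e2]
  let S : Submodule ℚ C :=
    { carrier := {z | ∃ (q : ℚ) (a : P), z = q • j a}
      add_mem' := by
        rintro _ _ ⟨s, a, rfl⟩ ⟨s', a', rfl⟩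
        exact hcomb s s' a a'
      zero_mem' := ⟨0, 0, by rw [zero_smul]⟩
      smul_mem' := by
        rintro t _ ⟨s, a, rfl⟩
        exact ⟨t * s, a, by rw [smul_smul]⟩ }
  have hSid : ∀ a : Fin d → C, (∀ i, a i ∈ S) →
      ∑ τ, c τ • (List.ofFn fun k => a (τ k)).prod = 0 := by
    intro a ha
    choose q b hqb using ha
    have h1 : ∀ τ : Equiv.Perm (Fin d), (List.ofFn fun k => a (τ k)).prod =
        (∏ k, q k) • (List.ofFn fun k => j (b (τ k))).prod := by
      intro τ
      have h2 := (MultilinearMap.mkPiAlgebraFin ℚ d C).map_smul_univ (fun k => q (τ k))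
        (fun k => j (b (τ k)))
      simp only [MultilinearMap.mkPiAlgebraFin_apply] at h2
      rw [Equiv.prod_comp τ q] at h2
      rw [← h2]
      congr 2
      funext k
      exact hqb (τ k)
    have h2 := hc (fun k => j (b k)) (fun k => ⟨b k, rfl⟩)
    calc ∑ τ, c τ • (List.ofFn fun k => a (τ k)).prod
        = ∑ τ, (∏ k, q k) • (c τ • (List.ofFn fun k => j (b (τ k))).prod) := by
          refine Finset.sum_congr rfl fun τ _ => ?_
          rw [h1, smul_comm]
      _ = 0 := by rw [← Finset.smul_sum, h2, smul_zero]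
  obtain ⟨m, β, _, hβ, hX⟩ := Pool.Agent.H67.PI.matrix_identity S
    (by
      rintro _ ⟨s, a, rfl⟩ _ ⟨s', a', rfl⟩
      refine ⟨s * s', a * a', ?_⟩
      rw [smul_mul_smul_comm, map_mul]) c hc1 hSid
    (by
      intro z
      obtain ⟨t, s, a, rfl⟩ := hC z
      exact ⟨t, s • j a, ⟨s, a, rfl⟩, rfl⟩) Unit
  have hid : ∀ a : Fin m → C, ∑ π, β π • (List.ofFn fun k => a (π k)).prod = 0 := by
    intro a
    have h1 := hX (fun k => Matrix.scalar Unit (a k))
    have h2 : ∀ π : Equiv.Perm (Fin m), (List.ofFn fun k => Matrix.scalar Unit (a (π k))).prod =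
        Matrix.scalar Unit ((List.ofFn fun k => a (π k)).prod) := by
      intro π
      rw [map_list_prod, List.map_ofFn]
      rfl
    simp only [h2] at h1
    have h3 := congrFun (congrFun h1 ()) ()
    rw [Matrix.sum_apply] at h3
    simpa using h3
  obtain ⟨b, hb⟩ := IsLocalization.exist_integer_multiples_of_finite (nonZeroDivisors ℤ) β
  choose nn hnn using hb
  have hb0 : ((b : ℤ) : ℚ) ≠ 0 := Int.cast_ne_zero.2 (nonZeroDivisors.ne_zero b.2)
  have hnn' : ∀ π, (nn π : ℚ) = (b : ℤ) * β π := by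
    intro π
    have := hnn π
    rw [Algebra.smul_def] at this
    exact this
  obtain ⟨π0, hπ0⟩ : ∃ π0, β π0 ≠ 0 := by
    by_contra hcon
    push Not at hcon
    exact hβ (funext hcon)
  have h0 : nn π0 ≠ 0 := by
    intro h
    have h1 := hnn' π0
    rw [h, Int.cast_zero] at h1
    exact mul_ne_zero hb0 hπ0 h1.symm
  have hid' : ∀ a : Fin m → C, ∑ π, nn π • (List.ofFn fun k => a (π k)).prod = 0 := by
    intro a
    have h1 : ∀ π, nn π • (List.ofFn fun k => a (π k)).prod =
        ((b : ℤ) : ℚ) • (β π • (List.ofFn fun k => a (π k)).prod) := by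
      intro π
      rw [smul_smul, ← hnn', Int.cast_smul_eq_zsmul]
    rw [Finset.sum_congr rfl (fun π _ => h1 π), ← Finset.smul_sum, hid a, smul_zero]
  have hjk : ∀ k, j (npw α k) = (j α) ^ (k + 1) := by
    intro k
    induction k with
    | zero => rw [zero_add, pow_one]; rfl
    | succ k ih =>
      rw [pow_succ, ← ih, ← map_mul]
      rfl
  have hjα : ∀ k, (j α) ^ k ≠ 0 := by
    intro k
    cases k with
    | zero =>
      rw [pow_zero]
      intro h1
      apply hα0
      apply hj
      rw [map_zero, ← one_mul (j α), h1, zero_mul]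
    | succ k =>
      rw [← hjk]
      intro h
      exact hαk k (hj (h.trans (map_zero j).symm))
  obtain ⟨K, iK, s, Θ, hΘ⟩ := exists_matrix0 nn π0 h0 hid' hjα
  let Θ₁ : P →ₙ+* Matrix (Fin s) (Fin s) K :=
    { toFun := fun a => Θ (j a)
      map_mul' := by intro a b; rw [map_mul, map_mul]
      map_zero' := by rw [map_zero, map_zero]
      map_add' := by intro a b; rw [map_add, map_add] }
  obtain ⟨k, hk⟩ := no_rep hD hP hg Θ₁
  rw [npw_eq_pow] at hk
  exact hΘ (k + 1) hk

/-- If all the intersections of the variety with the varieties of the triangular matrices are Engel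
then it is Engel. -/
theorem engel_of_all {E : Set (RTerm × RTerm)}
    (hW : ∀ p k : ℕ, p.Prime → 1 ≤ k → IsEngel (E ∪ WId p (p ^ k))) : IsEngel E := by
  obtain ⟨n, hD⟩ := exists_D2Engel hW
  apply isEngel_of_forall
  intro A _ x y hA
  by_contra hcon
  push Not at hcon
  have hne : ∀ k, eng (sx x y) (sy x y) k ≠ 0 := by
    intro k hk
    have := eng_map (NonUnitalSubringClass.subtype (sub2 x y)) (sx x y) (sy x y) k
    rw [hk, map_zero] at this
    exact hcon k this.symm
  obtain ⟨Q, _, X, Y, hQ, hg, hP, hne'⟩ := prime_quot hD (hA.subring (sub2 x y))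
    (genBy_sub2 x y) hne
  have hdom : ∀ a b : Q, a * b = 0 → a = 0 ∨ b = 0 := fun a b h => domain_of_prime hD hQ hP h
  have hc : X * Y = Y * X := by
    rcases char_cases hdom with ⟨p, hp, hpQ⟩ | htf
    · have : Fact p.Prime := ⟨hp⟩
      exact domain_comm hD (hW p 1 hp le_rfl) hQ hpQ hdom hg
    · have : Fact (Nat.Prime 2) := ⟨Nat.prime_two⟩
      exact domain_comm0 (p := 2) hD (hW 2 1 Nat.prime_two le_rfl) hQ htf hdom hg
  apply hne' 1
  change X * Y - Y * X = 0
  rw [hc, sub_self]

/-- **Every minimal non-Engel variety is a Cross variety.** -/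
theorem main {E : Set (RTerm × RTerm)} (h : MinimalNonEngel E) : IsCross E := by
  by_cases hW : ∀ p k : ℕ, p.Prime → 1 ≤ k → IsEngel (E ∪ WId p (p ^ k))
  · exact absurd (engel_of_all hW) h.1
  · push Not at hW
    obtain ⟨p, k, hp, hk, hne⟩ := hW
    have : Fact p.Prime := ⟨hp⟩
    have h1 : SubvarietyOf (E ∪ WId p (p ^ k)) E := fun R _ hR e he => hR e (Or.inl he)
    have h2 : SubvarietyOf E (E ∪ WId p (p ^ k)) := by
      by_contra hcon
      exact hne (h.2 _ h1 hcon)
    exact cross_of_sub hk (fun R _ hR e he => h2 R hR e (Or.inr he))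

end Pool.Agent.U312.NE
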