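import Pool.Agent.U312.NE.Poly0

/-! Representations of `ℚ`-algebras with a multilinear identity; rings without zero divisors of
characteristic zero. -/

set_option autoImplicit false

namespace Pool.Agent.U312.NE

open Pool.Agent.H854R3.NE Polynomial

/-- A simple module over a ring with a multilinear identity is finite over its endomorphisms
(as `Pool.Agent.H854R3.NE.finite_of_identity`, with a coefficient that need not be one). -/
theorem finite_of_identity0 {R M : Type} [Ring R] [AddCommGroup M] [Module R M]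
    [IsSimpleModule R M] [DecidableEq (Module.End R M)] {m : ℕ}
    (nn : Equiv.Perm (Fin m) → ℤ) (π0 : Equiv.Perm (Fin m)) (h0 : ∀ v : M, nn π0 • v = 0 → v = 0)
    (hid : ∀ t : Fin m → R, ∑ π, nn π • (List.ofFn fun k => t (π k)).prod = 0) :
    Module.Finite (Module.End R M) M := by
  classical
  by_contra hinf
  have h1 : ((m + 1 : ℕ) : Cardinal) ≤ Module.rank (Module.End R M) M := by
    apply le_trans (Cardinal.natCast_lt_aleph0).le
    rw [← not_lt]
    intro h
    exact hinf (Module.rank_lt_aleph0_iff.1 h)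
  obtain ⟨s, hs, hli⟩ := exists_finset_linearIndependent_of_le_rank h1
  let e : Fin (m + 1) ≃ s := (Fintype.equivFinOfCardEq (by simpa using hs)).symm
  let v : Fin (m + 1) → M := fun i => (e i : M)
  have hv : LinearIndependent (Module.End R M) v := by
    have h2 : LinearIndependent (Module.End R M) (fun i : s => (i : M)) := hli
    exact h2.comp e e.injective
  have hf : ∀ k : Fin m, ∃ f : M →ₗ[Module.End R M] M,
      ∀ j, f (v j) = if j = k.succ then v k.castSucc else 0 := by
    intro k
    obtain ⟨g, hg⟩ := LinearMap.exists_extend ((Module.Basis.span hv).constr ℤ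
      (fun j => if j = k.succ then v k.castSucc else 0))
    refine ⟨g, fun j => ?_⟩
    have h3 := congrArg (fun h => h (Module.Basis.span hv j)) hg
    simp only [LinearMap.comp_apply, Module.Basis.constr_basis] at h3
    rw [← h3]
    congr 1
    simp [Module.Basis.span_apply]
  choose f hf using hf
  have hr : ∀ k : Fin m, ∃ r : R, ∀ j, r • v j = if j = k.succ then v k.castSucc else 0 := by
    intro k
    obtain ⟨r, hr⟩ := jacobson_density (f k) (Finset.univ.image v)
    refine ⟨r, fun j => ?_⟩
    rw [← hr (v j) (Finset.mem_image_of_mem v (Finset.mem_univ j)), hf]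
  choose r hr using hr
  have h2 := hid (fun j => r (π0⁻¹ j))
  have h3 := congrArg (fun z => z • v (Fin.last m)) h2
  simp only [Finset.sum_smul, zero_smul] at h3
  have h4 : ∀ π : Equiv.Perm (Fin m),
      (nn π • (List.ofFn fun k => r (π0⁻¹ (π k))).prod) • v (Fin.last m) =
      if π = π0 then nn π0 • v 0 else 0 := by
    intro π
    rw [smul_assoc]
    have h5 := chain_prod v r hr (π0⁻¹ * π)
    have h6 : (List.ofFn fun k => r (π0⁻¹ (π k))).prod • v (Fin.last m) =
      if π0⁻¹ * π = 1 then v 0 else 0 := h5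
    rw [h6]
    by_cases h7 : π = π0
    · rw [if_pos h7, if_pos (by rw [h7, inv_mul_cancel]), h7]
    · rw [if_neg h7, if_neg, smul_zero]
      intro h8
      exact h7 (inv_mul_eq_one.1 h8).symm
  rw [Finset.sum_congr rfl (fun π _ => h4 π), Finset.sum_ite_eq' Finset.univ π0,
    if_pos (Finset.mem_univ _)] at h3
  exact hv.ne_zero 0 (h0 _ h3)

/-- A `ℚ`-algebra with a multilinear identity and a non-nilpotent element has a representation by
matrices over a field in which the element is not nilpotent (as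
`Pool.Agent.H854R3.NE.exists_matrix`, with a coefficient that need not be one). -/
theorem exists_matrix0 {C : Type} [Ring C] [Algebra ℚ C] {m : ℕ}
    (nn : Equiv.Perm (Fin m) → ℤ) (π0 : Equiv.Perm (Fin m)) (h0 : nn π0 ≠ 0)
    (hid : ∀ a : Fin m → C, ∑ π, nn π • (List.ofFn fun k => a (π k)).prod = 0)
    {β : C} (hβ : ∀ k, β ^ k ≠ 0) :
    ∃ (K : Type) (_ : Field K) (s : ℕ) (Θ : C →+* Matrix (Fin s) (Fin s) K), ∀ k, Θ β ^ k ≠ 0 := by
  classical
  obtain ⟨M, i1, i2, hsimp, hM⟩ := exists_simple hβ
  let ρ : C[X] →+* AddMonoid.End M := Module.toAddMonoidEnd C[X] M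
  have hρ : ∀ q (v : M), ρ q v = q • v := fun q v => rfl
  obtain ⟨X', hX1, hX2, hX3⟩ := exists_comm_max (Set.range ρ)
  have hone : (1 : AddMonoid.End M) ∈ X' :=
    hX3 1 (fun s _ => by rw [one_mul, mul_one]) (fun s _ => by rw [one_mul, mul_one])
  have hmul : ∀ a ∈ X', ∀ b ∈ X', a * b ∈ X' := by
    intro a ha b hb
    apply hX3
    · intro s hs
      rw [mul_assoc, hX1 b hb s hs, ← mul_assoc, hX1 a ha s hs, mul_assoc]
    · intro s hs
      rw [mul_assoc, hX2 b hb s hs, ← mul_assoc, hX2 a ha s hs, mul_assoc]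
  have hX : ρ X ∈ X' := by
    apply hX3
    · rintro _ ⟨q, rfl⟩
      rw [← map_mul, ← map_mul, X_mul]
    · intro ψ hψ
      exact (hX1 ψ hψ _ ⟨X, rfl⟩).symm
  let G : Submonoid (AddMonoid.End M) :=
    { carrier := {z | ∃ r : C, ∃ κ ∈ X', z = (ρ.comp Polynomial.C) r * κ}
      mul_mem' := by
        rintro _ _ ⟨r, κ, hκ, rfl⟩ ⟨r', κ', hκ', rfl⟩
        refine ⟨r * r', κ * κ', hmul _ hκ _ hκ', ?_⟩
        have e := hX1 κ hκ ((ρ.comp Polynomial.C) r') ⟨Polynomial.C r', rfl⟩
        rw [map_mul, mul_assoc, ← mul_assoc κ, e]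
        simp only [mul_assoc]
      one_mem' := ⟨1, 1, hone, by rw [map_one, one_mul]⟩ }
  let T : Subring (AddMonoid.End M) := Subring.closure (G : Set (AddMonoid.End M))
  have hT : ∀ t ∈ T, t ∈ AddSubgroup.closure
      {z | ∃ r : C, ∃ κ ∈ X', z = (ρ.comp Polynomial.C) r * κ} := by
    intro t ht
    have h1 := Subring.mem_closure_iff.1 ht
    rw [Submonoid.closure_eq] at h1
    exact h1
  have hCT : ∀ r : C, ρ (Polynomial.C r) ∈ T := fun r =>
    Subring.subset_closure ⟨r, 1, hone, by rw [mul_one]; rfl⟩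
  have hXT : ∀ κ ∈ X', κ ∈ T := fun κ hκ =>
    Subring.subset_closure ⟨1, κ, hκ, by rw [map_one, one_mul]⟩
  have hρT : ∀ q : C[X], ρ q ∈ T := by
    intro q
    induction q using Polynomial.induction_on with
    | C a => exact hCT a
    | add p q hp hq => rw [map_add]; exact add_mem hp hq
    | monomial n a _ =>
      rw [map_mul, map_pow]
      exact mul_mem (hCT a) (pow_mem (hXT _ hX) _)
  have hsT : IsSimpleModule T M := by
    rw [isSimpleModule_iff_toSpanSingleton_surjective]
    obtain ⟨hn, hs⟩ := isSimpleModule_iff_toSpanSingleton_surjective.1 hsimp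
    refine ⟨hn, fun x hx y => ?_⟩
    obtain ⟨q, hq⟩ := hs x hx y
    exact ⟨⟨ρ q, hρT q⟩, hq⟩
  -- endomorphisms
  let toE : Module.End T M → AddMonoid.End M := fun φ => φ.toAddMonoidHom
  have hend : ∀ φ : Module.End T M, toE φ ∈ X' := by
    intro φ
    have h1 : ∀ t ∈ T, toE φ * t = t * toE φ := by
      intro t ht
      ext v
      exact φ.map_smul (⟨t, ht⟩ : T) v
    apply hX3
    · rintro _ ⟨q, rfl⟩
      exact h1 _ (hρT q)
    · intro ψ hψ
      exact h1 _ (hXT ψ hψ)
  have hcomm : ∀ φ ψ : Module.End T M, φ * ψ = ψ * φ := by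
    intro φ ψ
    have h1 := hX2 _ (hend φ) _ (hend ψ)
    ext v
    exact congrArg (fun f : AddMonoid.End M => f v) h1
  have hidT : ∀ t : Fin m → T, ∑ π, nn π • (List.ofFn fun k => t (π k)).prod = 0 := by
    intro t
    have h1 := identity_ext nn (ρ.comp Polynomial.C) hid X' hX2
      (fun κ hκ r => hX1 κ hκ _ ⟨Polynomial.C r, rfl⟩) (fun j => (t j : AddMonoid.End M))
      (fun j => hT _ (t j).2)
    apply Subtype.val_injective
    rw [AddSubmonoidClass.coe_finsetSum]
    change _ = (0 : AddMonoid.End M)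
    rw [← h1]
    apply Finset.sum_congr rfl
    intro π _
    have h2 : (((List.ofFn fun k => t (π k)).prod : T) : AddMonoid.End M) =
        (List.ofFn fun k => (t (π k) : AddMonoid.End M)).prod := by
      have := map_list_prod T.subtype (List.ofFn fun k => t (π k))
      rw [List.map_ofFn] at this
      exact this
    rw [← h2]
    rfl
  let iD : DivisionRing (Module.End T M) := Module.End.instDivisionRing
  let iF : Field (Module.End T M) := { iD with mul_comm := hcomm }
  have h0M : ∀ v : M, nn π0 • v = 0 → v = 0 := by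
    intro v hv
    have e1 : (Polynomial.C (algebraMap ℚ C ((nn π0 : ℚ)⁻¹)) : C[X]) * ((nn π0 : ℤ) : C[X]) = 1 := by
      rw [← map_intCast (Polynomial.C : C →+* C[X]),
        ← map_mul, ← map_intCast (algebraMap ℚ C), ← map_mul,
        inv_mul_cancel₀ (Int.cast_ne_zero.2 h0), map_one, map_one]
    have e2 : ((nn π0 : ℤ) : C[X]) • v = 0 := by
      rw [Int.cast_smul_eq_zsmul, hv]
    calc v = (1 : C[X]) • v := (one_smul _ v).symm
      _ = 0 := by rw [← e1, mul_smul, e2, smul_zero]
  have hfin : Module.Finite (Module.End T M) M := finite_of_identity0 nn π0 h0M hidT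
  let toT : C →+* T := (ρ.comp Polynomial.C).codRestrict T hCT
  let ψ : C →+* Module.End (Module.End T M) M := (Module.toModuleEnd (Module.End T M) M).comp toT
  obtain ⟨s, Θ, hΘ⟩ := matrix_of_comm ψ β (by
    intro k hk
    obtain ⟨v, hv⟩ := hM k
    apply hv
    have h1 : ∀ j, (ψ β ^ j) v = (Polynomial.C β : C[X]) ^ j • v := by
      intro j
      induction j with
      | zero => rw [pow_zero, pow_zero, one_smul]; rfl
      | succ j ih =>
        rw [pow_succ', pow_succ', mul_smul, ← ih]
        rfl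
    rw [← h1, hk]
    rfl)
  exact ⟨_, iF, s, Θ, hΘ⟩

end Pool.Agent.U312.NE
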