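import Pool.Agent.U312.NE.Zorn
import Pool.Agent.H67.PI.Lin
import Pool.Agent.H67.PI.Mat

/-! The torsion-free rings of the variety satisfy a nonzero polynomial identity. -/

set_option autoImplicit false

namespace Pool.Agent.U312.NE

open Pool.Agent.H854R3.NE

section

variable {p : ℕ} [hp : Fact p.Prime]

/-- the matrix unit `e_01` -/
def m0 : Matrix (Fin 2) (Fin 2) ℤ := !![0, 1; 0, 0]
/-- the matrix unit `e_11` -/
def m1 : Matrix (Fin 2) (Fin 2) ℤ := !![0, 0; 0, 1]

/-- the ring generated by `e_01` and `e_11` over the integers is not in the variety -/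
theorem not_models_TZ {E : Set (RTerm × RTerm)} (hW : IsEngel (E ∪ WId p (p ^ 1))) :
    ¬ Models E (sub2 m0 m1) := by
  intro hM
  let r : Matrix (Fin 2) (Fin 2) ℤ →+* Matrix (Fin 2) (Fin 2) (ZMod p) :=
    (Int.castRingHom (ZMod p)).mapMatrix
  let χ : sub2 m0 m1 →ₙ+* Matrix (Fin 2) (Fin 2) (ZMod p) :=
    { toFun := fun w => r (w : Matrix (Fin 2) (Fin 2) ℤ)
      map_mul' := fun a b => map_mul r (a : Matrix (Fin 2) (Fin 2) ℤ) b
      map_zero' := map_zero r
      map_add' := fun a b => map_add r (a : Matrix (Fin 2) (Fin 2) ℤ) b }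
  let T : NonUnitalSubring (Matrix (Fin 2) (Fin 2) (ZMod p)) := χ.range
  have hT : Models E T := hM.of_surjective χ.rangeRestrict
    (NonUnitalRingHom.rangeRestrict_surjective χ)
  have hgen := genBy_sub2 m0 m1
  have hχ0 : χ (sx m0 m1) = !![0, 1; 0, 0] := by
    change r m0 = _
    ext i j
    fin_cases i <;> fin_cases j <;> simp [r, m0]
  have hχ1 : χ (sy m0 m1) = !![0, 0; 0, 1] := by
    change r m1 = _
    ext i j
    fin_cases i <;> fin_cases j <;> simp [r, m1]
  have htri : ∀ t ∈ T, t 1 0 = 0 := by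
    rintro _ ⟨w, rfl⟩
    refine hgen.induction (P := fun w => χ w 1 0 = 0) ?_ ?_ ?_ ?_ ?_ ?_ w
    · rw [hχ0]; rfl
    · rw [hχ1]; rfl
    · rw [map_zero]; rfl
    · intro a b ha hb; rw [map_add, Matrix.add_apply, ha, hb, add_zero]
    · intro a ha; rw [map_neg, Matrix.neg_apply, ha, neg_zero]
    · intro a b ha hb
      rw [map_mul, Matrix.mul_apply, Fin.sum_univ_two, ha, hb, zero_mul, mul_zero, add_zero]
  have hcard : Fintype.card (ZMod p) = p ^ 1 := by rw [ZMod.card, pow_one]
  have hIW : IsW p 1 T := isW_tri p 1 hcard T htri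
  obtain ⟨n, hn, hE⟩ := hW
  have hmT : Models (E ∪ WId p (p ^ 1)) T := by
    rintro e (he | he)
    · exact hT e he
    · exact models_WId.2 hIW e he
  have h1 := hE T hmT (χ.rangeRestrict (sx m0 m1)) (χ.rangeRestrict (sy m0 m1))
  have h2 := eng_map (NonUnitalSubringClass.subtype T) (χ.rangeRestrict (sx m0 m1))
    (χ.rangeRestrict (sy m0 m1)) n
  rw [h1, map_zero] at h2
  have h3 : eng (!![0, 1; 0, 0] : Matrix (Fin 2) (Fin 2) (ZMod p)) !![0, 0; 0, 1] n = 0 := by
    rw [← hχ0, ← hχ1]
    exact h2.symm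
  have h4 : ∀ k, eng (!![0, 1; 0, 0] : Matrix (Fin 2) (Fin 2) (ZMod p)) !![0, 0; 0, 1] k =
      !![0, 1; 0, 0] := by
    intro k
    induction k with
    | zero => rfl
    | succ k ih =>
      change eng (!![0, 1; 0, 0] : Matrix (Fin 2) (Fin 2) (ZMod p)) !![0, 0; 0, 1] k * _ -
        _ * eng (!![0, 1; 0, 0] : Matrix (Fin 2) (Fin 2) (ZMod p)) !![0, 0; 0, 1] k = _
      rw [ih]
      ext i j
      fin_cases i <;> fin_cases j <;> simp [Matrix.mul_apply, Fin.sum_univ_two]
  rw [h4] at h3
  have h5 := congrFun (congrFun h3 0) 1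
  have h6 : (1 : ZMod p) = 0 := h5
  exact one_ne_zero h6

/-- the free algebra over the rationals -/
abbrev FQ := FreeAlgebra ℚ (Fin 2)

/-- first generator -/
def q0 : FQ := FreeAlgebra.ι ℚ 0
/-- second generator -/
def q1 : FQ := FreeAlgebra.ι ℚ 1

/-- the free ring without one -/
abbrev PhiQ : NonUnitalSubring FQ := sub2 q0 q1

/-- a homomorphism from the free ring -/
noncomputable def toMatQ : FQ →ₐ[ℚ] Matrix (Fin 2) (Fin 2) ℚ :=
  FreeAlgebra.lift ℚ ![!![0, 1; 0, 0], !![0, 0; 0, 1]]

theorem toMatQ_q0 : toMatQ q0 = !![0, 1; 0, 0] := by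
  simp [toMatQ, q0]

theorem toMatQ_q1 : toMatQ q1 = !![0, 0; 0, 1] := by
  simp [toMatQ, q1]

theorem not_models_PhiQ {E : Set (RTerm × RTerm)} (hW : IsEngel (E ∪ WId p (p ^ 1))) :
    ¬ Models E PhiQ := by
  intro hM
  apply not_models_TZ hW
  let χ : PhiQ →ₙ+* Matrix (Fin 2) (Fin 2) ℚ :=
    { toFun := fun w => toMatQ (w : FQ)
      map_mul' := fun a b => map_mul toMatQ (a : FQ) b
      map_zero' := map_zero toMatQ
      map_add' := fun a b => map_add toMatQ (a : FQ) b }
  let T : NonUnitalSubring (Matrix (Fin 2) (Fin 2) ℚ) := χ.range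
  have hT : Models E T := hM.of_surjective χ.rangeRestrict
    (NonUnitalRingHom.rangeRestrict_surjective χ)
  let r : Matrix (Fin 2) (Fin 2) ℤ →+* Matrix (Fin 2) (Fin 2) ℚ :=
    (Int.castRingHom ℚ).mapMatrix
  have hr : Function.Injective r := by
    intro a b hab
    ext i j
    have := congrFun (congrFun hab i) j
    simpa [r] using this
  let j : sub2 m0 m1 →ₙ+* Matrix (Fin 2) (Fin 2) ℚ :=
    { toFun := fun w => r (w : Matrix (Fin 2) (Fin 2) ℤ)
      map_mul' := fun a b => map_mul r (a : Matrix (Fin 2) (Fin 2) ℤ) b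
      map_zero' := map_zero r
      map_add' := fun a b => map_add r (a : Matrix (Fin 2) (Fin 2) ℤ) b }
  have hj : ∀ w, j w ∈ T := by
    intro w
    refine (genBy_sub2 m0 m1).induction (P := fun w => j w ∈ T) ?_ ?_ ?_ ?_ ?_ ?_ w
    · refine ⟨sx q0 q1, ?_⟩
      change toMatQ q0 = r m0
      rw [toMatQ_q0]
      ext i j
      fin_cases i <;> fin_cases j <;> simp [r, m0]
    · refine ⟨sy q0 q1, ?_⟩
      change toMatQ q1 = r m1
      rw [toMatQ_q1]
      ext i j
      fin_cases i <;> fin_cases j <;> simp [r, m1]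
    · rw [map_zero]; exact T.zero_mem
    · intro a b ha hb; rw [map_add]; exact T.add_mem ha hb
    · intro a ha; rw [map_neg]; exact T.neg_mem ha
    · intro a b ha hb; rw [map_mul]; exact T.mul_mem ha hb
  let j' : sub2 m0 m1 →ₙ+* T :=
    { toFun := fun w => ⟨j w, hj w⟩
      map_mul' := fun a b => Subtype.ext (map_mul j a b)
      map_zero' := Subtype.ext (map_zero j)
      map_add' := fun a b => Subtype.ext (map_add j a b) }
  refine hT.of_injective j' ?_
  intro a b hab
  have h1 : j a = j b := congrArg Subtype.val hab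
  exact Subtype.ext (hr h1)

theorem exists_polyQ {E : Set (RTerm × RTerm)} (hW : IsEngel (E ∪ WId p (p ^ 1))) :
    ∃ f : FQ, f ≠ 0 ∧ ∀ (A C : Type) [NonUnitalRing A] [Ring C] [Algebra ℚ C] (j : A →ₙ+* C),
      Function.Injective j → Models E A → ∀ x y : A, FreeAlgebra.lift ℚ ![j x, j y] f = 0 := by
  by_contra hcon
  push Not at hcon
  apply not_models_PhiQ hW
  intro e he v
  by_contra hne
  have hw : ((e.1.val v - e.2.val v : PhiQ) : FQ) ≠ 0 := by
    intro h
    apply hne
    have : e.1.val v - e.2.val v = 0 := Subtype.ext h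
    exact sub_eq_zero.1 this
  obtain ⟨A, C, i1, i2, i3, j, hj, hA, x, y, hxy⟩ := hcon _ hw
  let L := FreeAlgebra.lift ℚ ![j x, j y]
  have hL : ∀ w : PhiQ, ∃ a : A, L (w : FQ) = j a := by
    intro w
    refine (genBy_sub2 q0 q1).induction (P := fun w => ∃ a : A, L (w : FQ) = j a)
      ?_ ?_ ?_ ?_ ?_ ?_ w
    · exact ⟨x, by simp [L, sx, q0]⟩
    · exact ⟨y, by simp [L, sy, q1]⟩
    · exact ⟨0, by simp⟩
    · rintro a b ⟨a', ha⟩ ⟨b', hb⟩
      refine ⟨a' + b', ?_⟩
      change L ((a : FQ) + b) = _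
      rw [map_add, ha, hb, map_add]
    · rintro a ⟨a', ha⟩
      refine ⟨-a', ?_⟩
      change L (-(a : FQ)) = _
      rw [map_neg, ha, map_neg]
    · rintro a b ⟨a', ha⟩ ⟨b', hb⟩
      refine ⟨a' * b', ?_⟩
      change L ((a : FQ) * b) = _
      rw [map_mul, ha, hb, map_mul]
  choose ψ hψ using hL
  let Ψ : PhiQ →ₙ+* A :=
    { toFun := ψ
      map_mul' := by
        intro a b
        apply hj
        rw [map_mul, ← hψ, ← hψ, ← hψ]
        exact map_mul L (a : FQ) b
      map_zero' := by
        apply hj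
        rw [map_zero, ← hψ]
        exact map_zero L
      map_add' := by
        intro a b
        apply hj
        rw [map_add, ← hψ, ← hψ, ← hψ]
        exact map_add L (a : FQ) b }
  apply hxy
  have h1 : Ψ (e.1.val v - e.2.val v) = 0 := by
    rw [map_sub, val_map, val_map, sub_eq_zero]
    exact hA e he _
  have h2 : L ((e.1.val v - e.2.val v : PhiQ) : FQ) = j (Ψ (e.1.val v - e.2.val v)) := hψ _
  rw [h1, map_zero] at h2
  exact h2

end

open Finset Pool.Agent.H67.PI

/-- a nonzero polynomial identity for the elements of an additive submonoid gives a multilinear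
one (as in `Pool.Agent.H67.PI.linearise`) -/
theorem linearise' {F : Type} [Field F] {C : Type} [Ring C] [Algebra F C] (S : AddSubmonoid C)
    {n : ℕ} (f : FreeAlgebra F (Fin n)) (hf : f ≠ 0)
    (h : ∀ a : Fin n → C, (∀ i, a i ∈ S) → FreeAlgebra.lift F a f = 0) :
    ∃ (d : ℕ) (c : Equiv.Perm (Fin d) → F), c 1 = 1 ∧
      ∀ a : Fin d → C, (∀ i, a i ∈ S) →
        ∑ τ, c τ • (List.ofFn fun k => a (τ k)).prod = 0 := by
  classical
  set p := (FreeAlgebra.basisFreeMonoid F (Fin n)).repr f with hp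
  have hp0 : p ≠ 0 := by
    rw [hp]
    simpa using hf
  obtain ⟨w0, hw0, hmax⟩ := Finset.exists_max_image p.support (fun w => w.toList.length)
    (Finsupp.support_nonempty_iff.2 hp0)
  set d := w0.toList.length with hd
  set u : Fin d → Fin n := w0.toList.get with hu
  set c : Equiv.Perm (Fin d) → F := fun τ =>
    p (FreeMonoid.ofList (List.ofFn fun k => u (τ k))) with hc
  have hc1 : c 1 = p w0 := by
    simp only [hc, Equiv.Perm.coe_one, id_eq, hu]
    congr 1
    rw [List.ofFn_get]
    simp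
  have hc1' : c 1 ≠ 0 := by
    rw [hc1]
    exact Finsupp.mem_support_iff.1 hw0
  have key : ∀ a : Fin d → C, (∀ i, a i ∈ S) →
        ∑ τ, c τ • (List.ofFn fun k => a (τ k)).prod = 0 := by
    intro a ha
    have h1 : ∀ U : Finset (Fin d), FreeAlgebra.lift F
        (fun i : Fin n => ∑ j ∈ univ.filter (fun j => j ∉ U ∧ u j = i), a j) f = 0 := by
      intro U
      apply h
      intro i
      exact AddSubmonoid.sum_mem _ (fun j _ => ha j)
    have h2 : ∑ U : Finset (Fin d), ((-1 : ℤ) ^ U.card) • FreeAlgebra.lift F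
        (fun i : Fin n => ∑ j ∈ univ.filter (fun j => j ∉ U ∧ u j = i), a j) f = 0 := by
      apply Finset.sum_eq_zero
      intro U _
      rw [h1 U, smul_zero]
    simp only [lift_eq, Finset.smul_sum] at h2
    rw [Finset.sum_comm] at h2
    have h3 : ∀ w ∈ p.support, (∑ U : Finset (Fin d), ((-1 : ℤ) ^ U.card) •
        p w • (w.toList.map (fun i : Fin n =>
          ∑ j ∈ univ.filter (fun j => j ∉ U ∧ u j = i), a j)).prod) =
        ∑ τ : Equiv.Perm (Fin d), if List.ofFn (fun k => u (τ k)) = w.toList then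
          p w • (List.ofFn fun k => a (τ k)).prod else 0 := by
      intro w hw
      have h4 := incl_excl (F := F) u a w.toList (hmax w hw)
      have h5 := congrArg (fun x => p w • x) h4
      simp only [Finset.smul_sum, smul_ite, smul_zero] at h5
      rw [← h5]
      apply Finset.sum_congr rfl
      intro U _
      exact smul_comm _ _ _
    rw [← hp] at h2
    rw [Finset.sum_congr rfl h3, Finset.sum_comm] at h2
    rw [← h2]
    apply Finset.sum_congr rfl
    intro τ _
    by_cases hτ : FreeMonoid.ofList (List.ofFn fun k => u (τ k)) ∈ p.support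
    · rw [Finset.sum_eq_single_of_mem _ hτ]
      · rw [if_pos (by simp)]
      · intro w _ hw
        rw [if_neg]
        intro h'
        apply hw
        rw [h']
        simp
    · rw [Finset.sum_eq_zero]
      · have : c τ = 0 := by
          simpa [hc] using hτ
        rw [this, zero_smul]
      · intro w hw
        rw [if_neg]
        intro h'
        apply hτ
        rw [h']
        simpa using hw
  refine ⟨d, fun τ => (c 1)⁻¹ * c τ, inv_mul_cancel₀ hc1', fun a ha => ?_⟩
  have := congrArg (fun x => (c 1)⁻¹ • x) (key a ha)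
  simpa [Finset.smul_sum, mul_smul] using this

end Pool.Agent.U312.NE
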