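import Pool.Agent.H854R3.NE.FinRed
import Pool.Agent.H854R3.NE.Cross

/-! Rings with a pair of elements that satisfies no Engel condition: prime quotients. -/

set_option autoImplicit false

namespace Pool.Agent.U312.NE

open Pool.Agent.H854R3.NE

variable {R : Type} [NonUnitalRing R]

/-- a ring generated by `u`, `y` with `u u = 0` and `u R u = 0` -/
theorem D2_of_gen' {u y : R} (hg : GenBy u y) (huu : u * u = 0) (huru : ∀ r, u * r * u = 0) :
    D2 R := by
  have hsub : ∀ c ∈ Comm R, c ∈ TwoSidedIdeal.span ({u} : Set R) := by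
    obtain ⟨Q, inst, φ, hφ, hker⟩ := exists_quot (TwoSidedIdeal.span ({u} : Set R))
    have hu : φ u = 0 := (hker u).2 (TwoSidedIdeal.subset_span rfl)
    have hy : ∀ a, φ a * φ y = φ y * φ a := by
      intro a
      refine hg.induction (P := fun a => φ a * φ y = φ y * φ a) ?_ rfl ?_ ?_ ?_ ?_ a
      · rw [hu, zero_mul, mul_zero]
      · rw [map_zero, zero_mul, mul_zero]
      · intro a b ha hb; rw [map_add, add_mul, mul_add, ha, hb]
      · intro a ha; rw [map_neg, neg_mul, mul_neg, ha]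
      · intro a b ha hb; rw [map_mul, mul_assoc, hb, ← mul_assoc, ha, mul_assoc]
    have hc : ∀ b a, φ a * φ b = φ b * φ a := by
      intro b
      refine hg.induction (P := fun b => ∀ a, φ a * φ b = φ b * φ a) ?_ hy ?_ ?_ ?_ ?_ b
      · intro a; rw [hu, zero_mul, mul_zero]
      · intro a; rw [map_zero, zero_mul, mul_zero]
      · intro b c hb hc a; rw [map_add, add_mul, mul_add, hb, hc]
      · intro b hb a; rw [map_neg, neg_mul, mul_neg, hb]
      · intro b c hb hc a
        rw [map_mul, ← mul_assoc, hb, mul_assoc, hc, ← mul_assoc]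
    rintro c ⟨a, b, rfl⟩
    rw [← hker, map_sub, map_mul, map_mul, hc b a, sub_self]
  have hz : ∀ m ∈ TwoSidedIdeal.span ({u} : Set R), ∀ n ∈ TwoSidedIdeal.span ({u} : Set R),
      m * n = 0 := fun m hm n hn => span_mul_zero (G := {u})
    (by rintro a rfl b rfl; exact huu) (by rintro a rfl b rfl c; exact huru c) hm hn
  constructor
  · intro a ha b hb
    exact hz _ (hsub a ha) _ (hsub b hb)
  · intro a ha b hb c
    exact hz _ (TwoSidedIdeal.mul_mem_right _ _ _ (hsub a ha)) _ (hsub b hb)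

theorem eng_mem {I : TwoSidedIdeal R} {a : R} (ha : a ∈ I) (y : R) (m : ℕ) : eng a y m ∈ I := by
  induction m with
  | zero => exact ha
  | succ m ih => exact I.sub_mem (I.mul_mem_right _ _ ih) (I.mul_mem_left _ _ ih)

theorem eng_mem_of_le {I : TwoSidedIdeal R} {x y : R} {m k : ℕ} (h : eng x y m ∈ I) (hmk : m ≤ k) :
    eng x y k ∈ I := by
  obtain ⟨j, rfl⟩ := Nat.exists_eq_add_of_le hmk
  rw [eng_add]
  exact eng_mem h y j

/-- Elements `u` with `u u = 0`, `u R u = 0` satisfy the Engel condition. -/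
theorem eng_of_sq {E : Set (RTerm × RTerm)} {n : ℕ} (hD : D2Engel E n) (hR : Models E R) {u : R}
    (y : R) (huu : u * u = 0) (huru : ∀ r, u * r * u = 0) : eng u y n = 0 := by
  have h1 : D2 (sub2 u y) := D2_of_gen' (genBy_sub2 u y) (Subtype.ext huu)
    (fun r => Subtype.ext (huru r.1))
  have h2 := hD.2 (sub2 u y) (hR.subring _) h1 (sx u y) (sy u y)
  have h3 := eng_map (NonUnitalSubringClass.subtype (sub2 u y)) (sx u y) (sy u y) n
  rw [h2, map_zero] at h3
  exact h3.symm

/-- A pair of elements without Engel condition survives in a prime quotient. -/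
theorem prime_quot {E : Set (RTerm × RTerm)} {n : ℕ} (hD : D2Engel E n) (hR : Models E R) {x y : R}
    (hg : GenBy x y) (hne : ∀ k, eng x y k ≠ 0) :
    ∃ (Q : Type) (_ : NonUnitalRing Q) (X Y : Q), Models E Q ∧ GenBy X Y ∧ PrimeR Q ∧
      ∀ k, eng X Y k ≠ 0 := by
  obtain ⟨I, hI, hmax⟩ := exists_max_ideal (fun I : TwoSidedIdeal R => ∀ k, eng x y k ∉ I)
    (by intro k; rw [TwoSidedIdeal.mem_bot]; exact hne k)
    (by
      intro c _ _ hP U hU k hk
      obtain ⟨I, hI, h⟩ := (hU _).1 hk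
      exact hP I hI k h)
  have hmax' : ∀ J : TwoSidedIdeal R, I ≤ J → J ≠ I → ∃ k, eng x y k ∈ J := by
    intro J hJ hne
    by_contra hcon
    push Not at hcon
    exact hne (hmax J hcon hJ)
  obtain ⟨Q, inst, φ, hφ, hker⟩ := exists_quot I
  have hQ : Models E Q := hR.of_surjective φ hφ
  have hneQ : ∀ k, eng (φ x) (φ y) k ≠ 0 := by
    intro k hk
    rw [← eng_map, hker] at hk
    exact hI k hk
  refine ⟨Q, inst, φ x, φ y, hQ, hg.map φ hφ, ?_, hneQ⟩
  intro u v huv
  obtain ⟨u, rfl⟩ := hφ u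
  obtain ⟨v, rfl⟩ := hφ v
  have huv' : ∀ g, u * g * v ∈ I := by
    intro g
    rw [← hker, map_mul, map_mul]
    exact huv _
  by_contra hcon
  push Not at hcon
  obtain ⟨hu, hv⟩ := hcon
  rw [Ne, hker] at hu hv
  let K1 : TwoSidedIdeal R := TwoSidedIdeal.mk' {z | ∀ g, z * g * v ∈ I}
    (by intro g; rw [zero_mul, zero_mul]; exact I.zero_mem)
    (by intro x y hx hy g; rw [add_mul, add_mul]; exact I.add_mem (hx g) (hy g))
    (by intro x hx g; rw [neg_mul, neg_mul]; exact I.neg_mem (hx g))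
    (by intro x y hy g; rw [mul_assoc x y g, mul_assoc x]; exact I.mul_mem_left _ _ (hy g))
    (by intro x y hx g; rw [mul_assoc x y g]; exact hx (y * g))
  have hK1 : ∀ z, z ∈ K1 ↔ ∀ g, z * g * v ∈ I := fun z => TwoSidedIdeal.mem_mk' _ _ _ _ _ _ z
  obtain ⟨i, hi⟩ := hmax' K1 (fun z hz => (hK1 z).2 (fun g =>
      I.mul_mem_right _ _ (I.mul_mem_right _ _ hz)))
    (fun h => hu (h ▸ (hK1 u).2 huv'))
  let K2 : TwoSidedIdeal R := TwoSidedIdeal.mk' {z | ∀ w ∈ K1, ∀ g, w * g * z ∈ I}
    (by intro w _ g; rw [mul_zero]; exact I.zero_mem)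
    (by intro x y hx hy w hw g; rw [mul_add]; exact I.add_mem (hx w hw g) (hy w hw g))
    (by intro x hx w hw g; rw [mul_neg]; exact I.neg_mem (hx w hw g))
    (by intro x y hy w hw g; rw [← mul_assoc, mul_assoc w g x]; exact hy w hw (g * x))
    (by intro x y hx w hw g; rw [← mul_assoc]; exact I.mul_mem_right _ _ (hx w hw g))
  have hK2 : ∀ z, z ∈ K2 ↔ ∀ w ∈ K1, ∀ g, w * g * z ∈ I :=
    fun z => TwoSidedIdeal.mem_mk' _ _ _ _ _ _ z
  obtain ⟨j, hj⟩ := hmax' K2 (fun z hz => (hK2 z).2 (fun w _ g => I.mul_mem_left _ _ hz))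
    (fun h => hv (h ▸ (hK2 v).2 (fun w hw g => (hK1 w).1 hw g)))
  set N := max i j with hN
  set w : Q := φ (eng x y N) with hw
  have hww : ∀ g : Q, w * g * w = 0 := by
    intro g
    obtain ⟨g, rfl⟩ := hφ g
    rw [hw, ← map_mul, ← map_mul, hker]
    exact (hK2 _).1 (eng_mem_of_le hj (le_max_right i j)) _ (eng_mem_of_le hi (le_max_left i j)) g
  -- an element with square zero
  obtain ⟨M, hM1, hM2⟩ : ∃ M, φ (eng x y M) * φ (eng x y M) = 0 ∧
      ∀ g, φ (eng x y M) * g * φ (eng x y M) = 0 := by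
    by_cases h0 : w * w = 0
    · exact ⟨N, h0, hww⟩
    · have hz : ∀ m ∈ TwoSidedIdeal.span ({w * w} : Set Q),
          ∀ n ∈ TwoSidedIdeal.span ({w * w} : Set Q), m * n = 0 := fun m hm n hn =>
        span_mul_zero (G := {w * w})
          (by rintro a rfl b rfl; rw [← mul_assoc, hww, zero_mul])
          (by
            rintro a rfl b rfl c
            have : w * w * c * (w * w) = w * (w * c * w) * w := by noncomm_ring
            rw [this, hww]) hm hn
      let K3 : TwoSidedIdeal R := (TwoSidedIdeal.span ({w * w} : Set Q)).comap φ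
      have hK3 : ∀ z, z ∈ K3 ↔ φ z ∈ TwoSidedIdeal.span ({w * w} : Set Q) := fun z =>
        TwoSidedIdeal.mem_comap φ
      obtain ⟨M, hM⟩ := hmax' K3 (fun z hz => by
          rw [hK3, (hker z).2 hz]
          exact TwoSidedIdeal.zero_mem _)
        (by
          intro h
          apply h0
          have h1 : eng x y N * eng x y N ∈ K3 := by
            rw [hK3, map_mul]
            exact TwoSidedIdeal.subset_span rfl
          rw [h, ← hker, map_mul] at h1
          exact h1)
      rw [hK3] at hM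
      exact ⟨M, hz _ hM _ hM, fun g => hz _ (TwoSidedIdeal.mul_mem_right _ _ _ hM) _ hM⟩
  have h1 := eng_of_sq hD hQ (φ y) hM1 hM2
  rw [eng_map, ← eng_add] at h1
  exact hneQ _ h1

/-- A ring without zero divisors has prime characteristic or is torsion-free. -/
theorem char_cases (hdom : ∀ a b : R, a * b = 0 → a = 0 ∨ b = 0) :
    (∃ p : ℕ, p.Prime ∧ ∀ x : R, p • x = 0) ∨ ∀ k : ℕ, k ≠ 0 → ∀ x : R, k • x = 0 → x = 0 := by
  classical
  by_cases h : ∃ k : ℕ, k ≠ 0 ∧ ∃ x : R, x ≠ 0 ∧ k • x = 0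
  · left
    obtain ⟨hp0, x, hx0, hx⟩ := Nat.find_spec h
    have hmin : ∀ {m : ℕ}, m < Nat.find h → m ≠ 0 → ∀ z : R, m • z = 0 → z = 0 := by
      intro m hm hm0 z hz
      by_contra hz0
      exact Nat.find_min h hm ⟨hm0, z, hz0, hz⟩
    set p := Nat.find h with hp
    have hp1 : p ≠ 1 := by
      intro h1
      rw [h1, one_smul] at hx
      exact hx0 hx
    have hprime : p.Prime := by
      rw [Nat.prime_def]
      refine ⟨by omega, ?_⟩
      intro m hm
      obtain ⟨k, hk⟩ := hm
      by_contra hcon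
      push Not at hcon
      obtain ⟨hm1, hmp⟩ := hcon
      have hm0 : m ≠ 0 := by rintro rfl; rw [zero_mul] at hk; exact hp0 hk
      have hk0 : k ≠ 0 := by rintro rfl; rw [mul_zero] at hk; exact hp0 hk
      have hk1 : k ≠ 1 := by rintro rfl; rw [mul_one] at hk; exact hmp hk.symm
      have hmlt : m < p := by
        rw [hk]
        exact lt_mul_of_one_lt_right (Nat.pos_of_ne_zero hm0) (by omega)
      have hklt : k < p := by
        rw [hk]
        exact lt_mul_of_one_lt_left (Nat.pos_of_ne_zero hk0) (by omega)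
      rw [hk, mul_smul] at hx
      exact hx0 (hmin hklt hk0 _ (hmin hmlt hm0 _ hx))
    refine ⟨p, hprime, fun s => ?_⟩
    have h1 : (p • s) * x = 0 := by
      rw [smul_mul_assoc, ← mul_smul_comm, hx, mul_zero]
    rcases hdom _ _ h1 with h2 | h2
    · exact h2
    · exact absurd h2 hx0
  · right
    push Not at h
    intro k hk x hx
    by_contra hx0
    exact h k hk x hx0 hx

end Pool.Agent.U312.NE
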